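import Mathlib
import Pool.Agent.TGS.Z2

/-!
# MP_cc5567_gt: discriminants of the fields of torsion generated arithmetic lattices

There is a constant `C` such that in every dimension `n ≥ 2` a number field of degree `d` that is the
field of definition of a cocompact arithmetic subgroup of `Isom(H^n)` generated by elements of finite
order has discriminant of absolute value at most `(C n d)^d`.

The library `Pool.Agent.TGL` (coarse Cartan-Hadamard theorem) is due to helper42.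
-/

set_option autoImplicit false
open Matrix

namespace Pool.Agent.Results.MP_cc5567_gt.DiscriminantBound

/-- The four conditions of the frozen statement of the problem, word for word: `Γ` consists of
isometries of hyperbolic `n`-space (hyperboloid model, `O⁺(n,1)`), is generated by its elements of
finite order, acts properly discontinuously, and has a compact fundamental set. -/
def TorsionGeneratedCocompact (n : ℕ) (Γ : Subgroup (Matrix (Fin (n+1)) (Fin (n+1)) ℝ)ˣ) : Prop :=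
  (∀ g ∈ Γ,
    (g : Matrix (Fin (n+1)) (Fin (n+1)) ℝ)ᵀ
        * Matrix.diagonal (fun i : Fin (n+1) => if i = 0 then (1:ℝ) else -1)
        * (g : Matrix (Fin (n+1)) (Fin (n+1)) ℝ)
      = Matrix.diagonal (fun i : Fin (n+1) => if i = 0 then (1:ℝ) else -1)
    ∧ 0 < (g : Matrix (Fin (n+1)) (Fin (n+1)) ℝ) 0 0) ∧
  Subgroup.closure {g : (Matrix (Fin (n+1)) (Fin (n+1)) ℝ)ˣ | g ∈ Γ ∧ IsOfFinOrder g} = Γ ∧
  (∀ K : Set (Fin (n+1) → ℝ), IsCompact K →
    K ⊆ {x : Fin (n+1) → ℝ | 0 < x 0 ∧ x 0 ^ 2 - ∑ i : Fin n, x i.succ ^ 2 = 1} →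
    {g : (Matrix (Fin (n+1)) (Fin (n+1)) ℝ)ˣ | g ∈ Γ ∧
      ∃ x ∈ K, (g : Matrix (Fin (n+1)) (Fin (n+1)) ℝ) *ᵥ x ∈ K}.Finite) ∧
  (∃ K : Set (Fin (n+1) → ℝ), IsCompact K ∧
    K ⊆ {x : Fin (n+1) → ℝ | 0 < x 0 ∧ x 0 ^ 2 - ∑ i : Fin n, x i.succ ^ 2 = 1} ∧
    ∀ y ∈ {x : Fin (n+1) → ℝ | 0 < x 0 ∧ x 0 ^ 2 - ∑ i : Fin n, x i.succ ^ 2 = 1},
      ∃ g ∈ Γ, ∃ x ∈ K, (g : Matrix (Fin (n+1)) (Fin (n+1)) ℝ) *ᵥ x = y)

/-- Arithmeticity criterion over the field `K ⊆ ℝ`: `K` is generated over `ℚ` by the squares of the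
traces of the elements of `Γ`; all traces are algebraic integers; and for every embedding `σ` of
`K` in the complex numbers other than the inclusion, `|σ((tr g)²)| ≤ (n+1)²` for all `g ∈ Γ` (the bound
valid in a compact orthogonal group). -/
structure ArithmeticOver (n : ℕ) (Γ : Subgroup (Matrix (Fin (n+1)) (Fin (n+1)) ℝ)ˣ)
    (K : IntermediateField ℚ ℝ) : Prop where
  field : IntermediateField.adjoin ℚ
    {t : ℝ | ∃ g ∈ Γ, t = Matrix.trace (g : Matrix (Fin (n+1)) (Fin (n+1)) ℝ) ^ 2} = K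
  integral : ∀ g ∈ Γ, IsIntegral ℤ (Matrix.trace (g : Matrix (Fin (n+1)) (Fin (n+1)) ℝ))
  bounded : ∀ σ : K →+* ℂ, (∃ x : K, σ x ≠ ((x : ℝ) : ℂ)) → ∀ g ∈ Γ, ∀ x : K,
    (x : ℝ) = Matrix.trace (g : Matrix (Fin (n+1)) (Fin (n+1)) ℝ) ^ 2 → ‖σ x‖ ≤ ((n : ℝ) + 1) ^ 2

theorem result : ∃ C : ℝ, ∀ n : ℕ, 2 ≤ n →
    ∀ Γ : Subgroup (Matrix (Fin (n+1)) (Fin (n+1)) ℝ)ˣ, TorsionGeneratedCocompact n Γ →
      ∀ (K : IntermediateField ℚ ℝ) [NumberField K], ArithmeticOver n Γ K →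
        (|NumberField.discr K| : ℝ) ≤
          (C * n * Module.finrank ℚ K) ^ Module.finrank ℚ K := by
  obtain ⟨C, -, h⟩ := Pool.Agent.TGS.disc_core
  refine ⟨C, ?_⟩
  rintro n hn Γ ⟨h1, h2, h3, h4⟩ K _ hK
  exact h n hn Γ h1 h3 h4 h2 K ⟨hK.field, hK.integral, hK.bounded⟩

end Pool.Agent.Results.MP_cc5567_gt.DiscriminantBound
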