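import Mathlib
import Pool.Agent.TGS.T5

/-!
# MP_cc5567_gt: an absolute bound for the systole of torsion generated cocompact lattices

There is a constant `C`, independent of the dimension `n ≥ 2`, such that every discrete cocompact group
of isometries of hyperbolic `n`-space generated by its elements of finite order contains an element
of infinite order that moves some point by at most `C`.

The library `Pool.Agent.TGL` (coarse Cartan-Hadamard theorem) is due to helper42.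
-/

set_option autoImplicit false
open Matrix

namespace Pool.Agent.Results.MP_cc5567_gt.SystoleBound

/-- The four conditions of the frozen statement of the problem, word for word: `Γ` consists of
isometries of hyperbolic `n`-space (hyperboloid model, `O⁺(n,1)`), is generated by its elements of
finite order, acts properly discontinuously, and has a compact fundamental set. -/
def TorsionGeneratedCocompact (n : ℕ) (Γ : Subgroup (Matrix (Fin (n+1)) (Fin (n+1)) ℝ)ˣ) : Prop :=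
  (∀ g ∈ Γ,
    (g : Matrix (Fin (n+1)) (Fin (n+1)) ℝ)ᵀ
        * Matrix.diagonal (fun i : Fin (n+1) => if i = 0 then (1:ℝ) else -1)
        * (g : Matrix (Fin (n+1)) (Fin (n+1)) ℝ)
      = Matrix.diagonal (fun i : Fin (n+1) => if i = 0 then (1:ℝ) else -1)
    ∧ 0 < (g : Matrix (Fin (n+1)) (Fin (n+1)) ℝ) 0 0) ∧
  Subgroup.closure {g : (Matrix (Fin (n+1)) (Fin (n+1)) ℝ)ˣ | g ∈ Γ ∧ IsOfFinOrder g} = Γ ∧
  (∀ K : Set (Fin (n+1) → ℝ), IsCompact K →
    K ⊆ {x : Fin (n+1) → ℝ | 0 < x 0 ∧ x 0 ^ 2 - ∑ i : Fin n, x i.succ ^ 2 = 1} →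
    {g : (Matrix (Fin (n+1)) (Fin (n+1)) ℝ)ˣ | g ∈ Γ ∧
      ∃ x ∈ K, (g : Matrix (Fin (n+1)) (Fin (n+1)) ℝ) *ᵥ x ∈ K}.Finite) ∧
  (∃ K : Set (Fin (n+1) → ℝ), IsCompact K ∧
    K ⊆ {x : Fin (n+1) → ℝ | 0 < x 0 ∧ x 0 ^ 2 - ∑ i : Fin n, x i.succ ^ 2 = 1} ∧
    ∀ y ∈ {x : Fin (n+1) → ℝ | 0 < x 0 ∧ x 0 ^ 2 - ∑ i : Fin n, x i.succ ^ 2 = 1},
      ∃ g ∈ Γ, ∃ x ∈ K, (g : Matrix (Fin (n+1)) (Fin (n+1)) ℝ) *ᵥ x = y)

/-- Hyperbolic distance of two points of the hyperboloid: `arcosh` of the Lorentz product. -/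
noncomputable def hdist {n : ℕ} (x y : Fin (n+1) → ℝ) : ℝ :=
  Real.arcosh (x 0 * y 0 - ∑ i : Fin n, x i.succ * y i.succ)

theorem result : ∃ C : ℝ, ∀ n : ℕ, 2 ≤ n →
    ∀ Γ : Subgroup (Matrix (Fin (n+1)) (Fin (n+1)) ℝ)ˣ, TorsionGeneratedCocompact n Γ →
      ∃ g ∈ Γ, ¬ IsOfFinOrder g ∧
        ∃ x : Fin (n+1) → ℝ, (0 < x 0 ∧ x 0 ^ 2 - ∑ i : Fin n, x i.succ ^ 2 = 1) ∧
          hdist x ((g : Matrix (Fin (n+1)) (Fin (n+1)) ℝ) *ᵥ x) ≤ C := by
  obtain ⟨C, -, h⟩ := Pool.Agent.TGS.systole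
  refine ⟨C, ?_⟩
  rintro n hn Γ ⟨h1, h2, h3, h4⟩
  obtain ⟨g, hg, he, x, hx, hgx⟩ := h n hn Γ h1 h3 h4 h2
  exact ⟨g, hg, fun hfin => he (Pool.Agent.TGS.ell_of_finOrder (h1 g hg) hfin), x, hx, hgx⟩

end Pool.Agent.Results.MP_cc5567_gt.SystoleBound
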